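import Pool.Agent.H500.TH.Stm
import Pool.Agent.H548.HC.Ratio

set_option autoImplicit false
set_option linter.unusedSectionVars false

/-!
# Project TH (helper500), part A1: counting in a coset of a group (helper800)
-/

namespace Pool.Agent.H800.TH.TRatio

open Pool.Agent.H500.KumI (AffI)
open Pool.Agent.H500.KumI.AffI
open Pool.Agent.H548.HC.Ratio

section loc

variable {ι : Type} [Fintype ι] [DecidableEq ι] {r : ℕ} [hr : Fact r.Prime] {G : Type} [Group G]
  (U : Subgroup G) (hU : U.Normal) (γ : G) (f : ℕ) (c : G →* (ZMod r)ˣ) (Φ : U →* AffI ι r)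
  (H : Matrix ι ι (ZMod r)) (w : (ZMod r)ˣ) (B : Set (ι → ZMod r))

/-- the normalised matrix -/
def MM (H : Matrix ι ι (ZMod r)) (w : (ZMod r)ˣ) : Matrix ι ι (ZMod r) :=
  ((w⁻¹ : (ZMod r)ˣ) : ZMod r) • H

theorem H_eq : H = (w : ZMod r) • MM H w := by
  unfold MM
  rw [smul_smul, Units.mul_inv, one_smul]

theorem MM_pow (hH : H ^ f = 1) (hw : w ^ f = 1) : MM H w ^ f = 1 := by
  unfold MM
  rw [smul_pow, hH, ← Units.val_pow_eq_pow_val, inv_pow, hw, inv_one, Units.val_one, one_smul]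

theorem MM_D (hH : H ^ f = 1) (hw : w ^ f = 1) :
    MM H w * (∑ j ∈ Finset.range f, MM H w ^ j) = ∑ j ∈ Finset.range f, MM H w ^ j := by
  have h1 := mul_geom_sum (MM H w) f
  rw [MM_pow f H w hH hw, sub_self, sub_mul, one_mul] at h1
  exact sub_eq_zero.1 h1

/-- the image of `D` consists of eigenvectors -/
theorem eig_D (hH : H ^ f = 1) (hw : w ^ f = 1) (z : ι → ZMod r) :
    H.mulVec ((∑ j ∈ Finset.range f, MM H w ^ j).mulVec z) =
      (w : ZMod r) • ((∑ j ∈ Finset.range f, MM H w ^ j).mulVec z) := by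
  rw [Matrix.mulVec_mulVec]
  have h1 : ∀ D : Matrix ι ι (ZMod r), MM H w * D = D → H * D = (w : ZMod r) • D := by
    intro D hD
    calc H * D = ((w : ZMod r) • MM H w) * D := by rw [← H_eq H w]
      _ = (w : ZMod r) • (MM H w * D) := by rw [Matrix.smul_mul]
      _ = (w : ZMod r) • D := by rw [hD]
  rw [h1 _ (MM_D f H w hH hw), Matrix.smul_mulVec]

/-- `D` is the multiplication by `f` on the eigenvectors -/
theorem D_eig (e : ι → ZMod r) (he : H.mulVec e = (w : ZMod r) • e) :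
    (∑ j ∈ Finset.range f, MM H w ^ j).mulVec e = (f : ZMod r) • e := by
  have h1 : (MM H w).mulVec e = e := by
    unfold MM
    rw [Matrix.smul_mulVec, he, smul_smul, Units.inv_mul, one_smul]
  have h2 : ∀ j : ℕ, (MM H w ^ j).mulVec e = e := by
    intro j
    induction j with
    | zero => rw [pow_zero, Matrix.one_mulVec]
    | succ j ih => rw [pow_succ, ← Matrix.mulVec_mulVec, h1, ih]
  have h3 : ∀ n : ℕ, (∑ j ∈ Finset.range n, MM H w ^ j).mulVec e = (n : ZMod r) • e := by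
    intro n
    induction n with
    | zero => rw [Finset.sum_range_zero, Matrix.zero_mulVec, Nat.cast_zero, zero_smul]
    | succ n ih =>
      rw [Finset.sum_range_succ, Matrix.add_mulVec, ih, h2, Nat.cast_succ, add_smul, one_smul]
  exact h3 f

include hU in
/-- powers of `g₁ k` -/
theorem pow_form (g : G) (hg : γ⁻¹ * g ∈ U)
    (hc : ∀ u, (Φ u).a = c u)
    (hconj : ∀ g : G, γ⁻¹ * g ∈ U → ∀ u u' : U, (Φ u).a = 1 → (u' : G) = g⁻¹ * u * g →
      (c g : ZMod r) • (Φ u').x = H.mulVec (Φ u).x) (hgw : c g = w) (k : U)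
    (hk : (Φ k).a = 1) (n : ℕ) :
    ∃ p : U, (g * k) ^ n = g ^ n * p ∧ (Φ p).a = 1 ∧
      (Φ p).x = (∑ j ∈ Finset.range n, MM H w ^ j).mulVec (Φ k).x := by
  induction n with
  | zero =>
    refine ⟨1, by simp, by rw [map_one, one_a], ?_⟩
    rw [map_one, one_x, Finset.sum_range_zero, Matrix.zero_mulVec]
  | succ n ih =>
    obtain ⟨p, h1, h2, h3⟩ := ih
    have hmem : g⁻¹ * (p : G) * g ∈ U := by
      have h4 := hU.conj_mem p p.2 g⁻¹
      rwa [inv_inv] at h4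
    obtain ⟨p', hp'⟩ : ∃ p' : U, (p' : G) = g⁻¹ * p * g := ⟨⟨_, hmem⟩, rfl⟩
    have h4 := hconj g hg p p' h2 hp'
    have h5 : (Φ p').x = (MM H w).mulVec (Φ p).x := by
      unfold MM
      rw [Matrix.smul_mulVec, ← h4, hgw, smul_smul, Units.inv_mul, one_smul]
    have h6 : (Φ p').a = 1 := by
      rw [hc] at h2 ⊢
      rw [hp', map_mul, map_mul, h2, mul_one, ← map_mul, inv_mul_cancel, map_one]
    refine ⟨p' * k, ?_, ?_, ?_⟩
    · rw [pow_succ, h1, Subgroup.coe_mul, hp', pow_succ]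
      group
    · rw [map_mul, mul_a, h6, hk, one_mul]
    · have h7 : ∑ j ∈ Finset.range (n + 1), MM H w ^ j =
          MM H w * ∑ j ∈ Finset.range n, MM H w ^ j + 1 := by
        rw [Finset.sum_range_succ', pow_zero, Finset.mul_sum]
        congr 1
        exact Finset.sum_congr rfl fun i _ => pow_succ' _ _
      rw [map_mul, mul_x, h6, Units.val_one, one_smul, h5, h3, Matrix.mulVec_mulVec, h7,
        Matrix.add_mulVec, Matrix.one_mulVec]

/-- counting by translations -/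
theorem count_z (hH : H ^ f = 1) (hw : w ^ f = 1) (hrf : ¬ r ∣ f)
    (hB : 2 * {x | x ∈ B ∧ H.mulVec x = (w : ZMod r) • x}.ncard ≤
      {x | H.mulVec x = (w : ZMod r) • x}.ncard) (x1 : ι → ZMod r)
    (hx1 : H.mulVec x1 = (w : ZMod r) • x1) :
    2 * {z : ι → ZMod r | x1 + (∑ j ∈ Finset.range f, MM H w ^ j).mulVec z ∈ B}.ncard ≤
      r ^ Fintype.card ι := by
  classical
  set D : Matrix ι ι (ZMod r) := ∑ j ∈ Finset.range f, MM H w ^ j with hD
  -- the eigenvectors as a finite set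
  set E : Finset (ι → ZMod r) := Finset.univ.filter (fun x => H.mulVec x = (w : ZMod r) • x) with hE
  have hfr : (f : ZMod r) ≠ 0 := by
    intro h
    exact hrf ((ZMod.natCast_eq_zero_iff _ _).1 h)
  have hEz : ∀ {x y : ι → ZMod r}, x ∈ E → y ∈ E → x + y ∈ E := by
    intro x y hx hy
    rw [hE, Finset.mem_filter] at hx hy ⊢
    exact ⟨Finset.mem_univ _, by rw [Matrix.mulVec_add, hx.2, hy.2, smul_add]⟩
  have hEn : ∀ {x : ι → ZMod r}, x ∈ E → -x ∈ E := by
    intro x hx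
    rw [hE, Finset.mem_filter] at hx ⊢
    exact ⟨Finset.mem_univ _, by rw [Matrix.mulVec_neg, hx.2, smul_neg]⟩
  have hE0 : (0 : ι → ZMod r) ∈ E := by
    rw [hE, Finset.mem_filter]
    exact ⟨Finset.mem_univ _, by rw [Matrix.mulVec_zero, smul_zero]⟩
  have hED : ∀ z, x1 + D.mulVec z ∈ E := by
    intro z
    apply hEz
    · rw [hE, Finset.mem_filter]
      exact ⟨Finset.mem_univ _, hx1⟩
    · rw [hE, Finset.mem_filter]
      exact ⟨Finset.mem_univ _, eig_D f H w hH hw z⟩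
  -- double counting
  have c1 : ∀ e ∈ E, ∑ z : ι → ZMod r, (if x1 + D.mulVec z + e ∈ B then 1 else 0) =
      ∑ z : ι → ZMod r, (if x1 + D.mulVec z ∈ B then 1 else 0) := by
    intro e he
    rw [← Equiv.sum_comp (Equiv.addRight ((f : ZMod r)⁻¹ • e))
      (fun z => if x1 + D.mulVec z ∈ B then (1 : ℕ) else 0)]
    refine Finset.sum_congr rfl fun z _ => ?_
    have h1 : D.mulVec ((f : ZMod r)⁻¹ • e) = e := by
      rw [hE, Finset.mem_filter] at he
      rw [Matrix.mulVec_smul, hD, D_eig f H w e he.2, smul_smul, inv_mul_cancel₀ hfr, one_smul]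
    rw [Equiv.coe_addRight, Matrix.mulVec_add, h1, add_assoc]
  have c2 : ∀ z : ι → ZMod r, ∑ e ∈ E, (if x1 + D.mulVec z + e ∈ B then 1 else 0) =
      ∑ e ∈ E, (if e ∈ B then 1 else 0) := by
    intro z
    apply Finset.sum_bij (fun e _ => x1 + D.mulVec z + e)
    · intro e he
      exact hEz (hED z) he
    · intro e _ e' _ h
      exact add_left_cancel h
    · intro e he
      exact ⟨-(x1 + D.mulVec z) + e, hEz (hEn (hED z)) he, by abel⟩
    · intro e _
      rfl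
  have c3 : E.card * {z : ι → ZMod r | x1 + D.mulVec z ∈ B}.ncard =
      r ^ Fintype.card ι * {x | x ∈ B ∧ H.mulVec x = (w : ZMod r) • x}.ncard := by
    have e1 : {z : ι → ZMod r | x1 + D.mulVec z ∈ B}.ncard =
        ∑ z : ι → ZMod r, (if x1 + D.mulVec z ∈ B then 1 else 0) := by
      rw [← Finset.card_filter, ← Set.ncard_coe_finset]
      congr 1
      ext z
      simp
    have e2 : {x | x ∈ B ∧ H.mulVec x = (w : ZMod r) • x}.ncard =
        ∑ e ∈ E, (if e ∈ B then 1 else 0) := by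
      rw [← Finset.card_filter, ← Set.ncard_coe_finset]
      congr 1
      ext z
      simp [hE, and_comm]
    have e3 : r ^ Fintype.card ι = (Finset.univ : Finset (ι → ZMod r)).card := by
      rw [Finset.card_univ, Fintype.card_pi]
      simp [ZMod.card]
    rw [e1, e2, e3, ← smul_eq_mul, ← smul_eq_mul, ← Finset.sum_const, ← Finset.sum_const,
      ← Finset.sum_congr rfl c1, ← Finset.sum_congr rfl (fun z _ => c2 z), Finset.sum_comm]
  have c4 : {x | H.mulVec x = (w : ZMod r) • x}.ncard = E.card := by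
    rw [← Set.ncard_coe_finset]
    congr 1
    ext z
    simp [hE]
  rw [c4] at hB
  have hEpos : 0 < E.card := Finset.card_pos.2 ⟨0, hE0⟩
  refine Nat.le_of_mul_le_mul_left ?_ hEpos
  calc E.card * (2 * {z : ι → ZMod r | x1 + D.mulVec z ∈ B}.ncard)
      = 2 * (E.card * {z : ι → ZMod r | x1 + D.mulVec z ∈ B}.ncard) := by ring
    _ = r ^ Fintype.card ι * (2 * {x | x ∈ B ∧ H.mulVec x = (w : ZMod r) • x}.ncard) := by
        rw [c3]; ring
    _ ≤ r ^ Fintype.card ι * E.card := Nat.mul_le_mul_left _ hB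
    _ = _ := mul_comm _ _

include hU in
/-- the number of the elements which are allowed at one place -/
theorem loc_count (hγ : γ ^ f ∈ U) (hrf : ¬ r ∣ f) (hc : ∀ u, (Φ u).a = c u)
    (hs : Function.Surjective Φ)
    (hconj : ∀ g : G, γ⁻¹ * g ∈ U → ∀ u u' : U, (Φ u).a = 1 → (u' : G) = g⁻¹ * u * g →
      (c g : ZMod r) • (Φ u').x = H.mulVec (Φ u).x) (hH : H ^ f = 1) (hw : w ^ f = 1)
    (hB : 2 * {x | x ∈ B ∧ H.mulVec x = (w : ZMod r) • x}.ncard ≤
      {x | H.mulVec x = (w : ZMod r) • x}.ncard) :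
    2 * (Φ '' {u : U | c (γ * u) = w → ∀ v : U, (v : G) = (γ * u) ^ f → (Φ v).x ∈ B}).ncard +
      r ^ Fintype.card ι ≤ 2 * Nat.card (AffI ι r) := by
  classical
  obtain ⟨T, hT⟩ : ∃ T : Set (AffI ι r), T =
    Φ '' {u : U | c (γ * u) = w → ∀ v : U, (v : G) = (γ * u) ^ f → (Φ v).x ∈ B} := ⟨_, rfl⟩
  rw [← hT]
  obtain ⟨a0, ha0⟩ : ∃ a0 : (ZMod r)ˣ, a0 = (c γ)⁻¹ * w := ⟨_, rfl⟩
  obtain ⟨u1, hu1⟩ := hs ⟨a0, 0⟩
  obtain ⟨g1, hg1⟩ : ∃ g1 : G, g1 = γ * u1 := ⟨_, rfl⟩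
  have hu1a : (c u1 : (ZMod r)ˣ) = a0 := by rw [← hc, hu1]
  have hg1w : c g1 = w := by rw [hg1, map_mul, hu1a, ha0, mul_inv_cancel_left]
  have hg1U : γ⁻¹ * g1 ∈ U := by rw [hg1, inv_mul_cancel_left]; exact u1.2
  have hpowU : ∀ u : U, (γ * (u : G)) ^ f ∈ U := by
    intro u
    rw [← QuotientGroup.eq_one_iff (N := U)]
    have e1 : ((u : G) : G ⧸ U) = 1 := (QuotientGroup.eq_one_iff (N := U) (u : G)).2 u.2
    rw [QuotientGroup.mk_pow, QuotientGroup.mk_mul, e1, mul_one, ← QuotientGroup.mk_pow]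
    exact (QuotientGroup.eq_one_iff (N := U) _).2 hγ
  obtain ⟨v1, hv1⟩ : ∃ v1 : U, (v1 : G) = g1 ^ f := ⟨⟨_, by rw [hg1]; exact hpowU u1⟩, rfl⟩
  have hv1a : (Φ v1).a = 1 := by rw [hc, hv1, map_pow, hg1w, hw]
  have hx1 : H.mulVec (Φ v1).x = (w : ZMod r) • (Φ v1).x := by
    have h1 := hconj g1 hg1U v1 v1 hv1a (by rw [hv1]; group)
    rw [← h1, hg1w]
  have hz := count_z f H w B hH hw hrf hB (Φ v1).x hx1
  set D : Matrix ι ι (ZMod r) := ∑ j ∈ Finset.range f, MM H w ^ j with hD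
  -- the complement
  have hinj : Set.InjOn (fun z : ι → ZMod r => (⟨a0, (a0 : ZMod r) • z⟩ : AffI ι r))
      {z | ¬ ((Φ v1).x + D.mulVec z ∈ B)} := by
    intro z _ z' _ h
    have h1 := congrArg AffI.x h
    have h2 : ((a0⁻¹ : (ZMod r)ˣ) : ZMod r) • ((a0 : ZMod r) • z) =
        ((a0⁻¹ : (ZMod r)ˣ) : ZMod r) • ((a0 : ZMod r) • z') := congrArg _ h1
    rwa [smul_smul, smul_smul, Units.inv_mul, one_smul, one_smul] at h2
  have hmaps : ∀ z ∈ {z : ι → ZMod r | ¬ ((Φ v1).x + D.mulVec z ∈ B)},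
      (⟨a0, (a0 : ZMod r) • z⟩ : AffI ι r) ∈ Tᶜ := by
    intro z hzB hzT
    rw [hT] at hzT
    obtain ⟨u, hu, hue⟩ := hzT
    have hua : c u = a0 := by rw [← hc, hue]
    have hγu : c (γ * u) = w := by rw [map_mul, hua, ha0, mul_inv_cancel_left]
    obtain ⟨v, hv⟩ : ∃ v : U, (v : G) = (γ * u) ^ f := ⟨⟨_, hpowU u⟩, rfl⟩
    have h1 := hu hγu v hv
    apply hzB
    obtain ⟨k, hk⟩ : ∃ k : U, k = u1⁻¹ * u := ⟨_, rfl⟩
    have hka : (Φ k).a = 1 := by
      rw [hk, map_mul, map_inv, mul_a, inv_a, hu1, hue, inv_mul_cancel]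
    have hkx : (Φ k).x = z := by
      rw [hk, map_mul, map_inv, mul_x, inv_x, inv_a, hu1, hue, smul_zero, neg_zero, zero_add,
        smul_smul, Units.inv_mul, one_smul]
    obtain ⟨p, hp1, hp2, hp3⟩ := pow_form U hU γ c Φ H w g1 hg1U hc hconj hg1w k hka f
    have h2 : γ * (u : G) = g1 * k := by
      rw [hg1, hk, Subgroup.coe_mul, Subgroup.coe_inv]
      group
    have h3 : v = v1 * p := by
      apply Subtype.ext
      rw [hv, h2, hp1, Subgroup.coe_mul, hv1]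
    rw [h3, map_mul, mul_x, hv1a, Units.val_one, one_smul, hp3, hkx] at h1
    exact h1
  have h1 : {z : ι → ZMod r | ¬ ((Φ v1).x + D.mulVec z ∈ B)}.ncard ≤ (Tᶜ).ncard :=
    Set.ncard_le_ncard_of_injOn _ hmaps hinj (Set.toFinite _)
  have h2 := Set.ncard_add_ncard_compl T
  have h3 := Set.ncard_add_ncard_compl {z : ι → ZMod r | (Φ v1).x + D.mulVec z ∈ B}
  have h4 : Nat.card (ι → ZMod r) = r ^ Fintype.card ι := by
    rw [Nat.card_eq_fintype_card, Fintype.card_pi]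
    simp [ZMod.card]
  have h5 : ({z : ι → ZMod r | (Φ v1).x + D.mulVec z ∈ B}ᶜ).ncard =
      {z : ι → ZMod r | ¬ ((Φ v1).x + D.mulVec z ∈ B)}.ncard := rfl
  omega

end loc

theorem main : Pool.Agent.H500.TH.S_TRatio := by
  classical
  intro I ι _ _ _ r hr G _ U γ f c Φ H w B hU hf hγ hinj hrr hc hχ hxx hconj hHw hB
  have hsurj := surj r Φ hχ hxx
  have hindep := indep r hinj (fun i => (hrr i).1) Φ hχ
  set Ψ : U →* ((i : I) → AffI ι (r i)) := MonoidHom.pi Φ with hΨ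
  have hΨa : ∀ g i, Ψ g i = Φ i g := fun g i => rfl
  have hΨs : Function.Surjective Ψ := by
    intro q
    choose g hg using fun i => hsurj i (q i)
    obtain ⟨g', hg'⟩ := hindep g
    refine ⟨g', ?_⟩
    funext i
    rw [hΨa, hg', hg]
  have hinjk : Function.Injective (QuotientGroup.kerLift Ψ) := QuotientGroup.kerLift_injective Ψ
  have hsurjk : Function.Surjective (QuotientGroup.kerLift Ψ) := by
    intro q
    obtain ⟨g, hg⟩ := hΨs q
    exact ⟨(g : U ⧸ Ψ.ker), hg⟩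
  have e1 : Nat.card (U ⧸ Ψ.ker) = ∏ i, Nat.card (AffI ι (r i)) := by
    rw [Nat.card_congr (Equiv.ofBijective _ ⟨hinjk, hsurjk⟩), Nat.card_pi]
  -- the allowed elements
  set T : ∀ i, Set (AffI ι (r i)) := fun i => Φ i '' {u : U | c i (γ * u) = w i →
    ∀ v : U, (v : G) = (γ * u) ^ f → (Φ i v).x ∈ B i} with hT
  have hloc : ∀ i, 2 * (T i).ncard + (r i) ^ Fintype.card ι ≤ 2 * Nat.card (AffI ι (r i)) :=
    fun i => loc_count U hU γ f (c i) (Φ i) (H i) (w i) (B i) hγ (hrr i).2 (hc i) (hsurj i)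
      (hconj i) (hHw i).1 (hHw i).2 (hB i)
  set S0 : Set G := {g | γ⁻¹ * g ∈ U ∧ ∀ i, c i g = w i → ∀ u : U, (u : G) = g ^ f →
    (Φ i u).x ∈ B i} with hS0
  set N : Subgroup G := Ψ.ker.map U.subtype with hN
  have e2 : ((QuotientGroup.mk : G → G ⧸ N) '' S0).ncard ≤
      {q : (i : I) → AffI ι (r i) | ∀ i, q i ∈ T i}.ncard := by
    have hch : ∀ q : G ⧸ N, q ∈ (QuotientGroup.mk : G → G ⧸ N) '' S0 →
        ∃ u : U, γ * (u : G) ∈ S0 ∧ (QuotientGroup.mk (γ * (u : G)) : G ⧸ N) = q := by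
      rintro q ⟨g, hg, rfl⟩
      refine ⟨⟨γ⁻¹ * g, hg.1⟩, ?_, ?_⟩
      · rw [mul_inv_cancel_left]; exact hg
      · rw [mul_inv_cancel_left]
    refine Set.ncard_le_ncard_of_injOn
      (fun q => if hq : q ∈ (QuotientGroup.mk : G → G ⧸ N) '' S0 then Ψ (hch q hq).choose else 1)
      ?_ ?_ (Set.toFinite _)
    · intro q hq
      simp only [dif_pos hq]
      intro i
      have h1 := (hch q hq).choose_spec.1
      refine ⟨(hch q hq).choose, ?_, rfl⟩
      intro hcw v hv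
      exact h1.2 i hcw v hv
    · intro q hq q' hq' h
      simp only [dif_pos hq, dif_pos hq'] at h
      have h1 := (hch q hq).choose_spec.2
      have h2 := (hch q' hq').choose_spec.2
      rw [← h1, ← h2, QuotientGroup.eq]
      refine (Subgroup.mem_map).2 ⟨(hch q hq).choose⁻¹ * (hch q' hq').choose, ?_, ?_⟩
      · rw [MonoidHom.mem_ker, map_mul, map_inv, h, inv_mul_cancel]
      · rw [Subgroup.coe_subtype, Subgroup.coe_mul, Subgroup.coe_inv]
        group
  have e3 : {q : (i : I) → AffI ι (r i) | ∀ i, q i ∈ T i}.ncard = ∏ i, (T i).ncard := by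
    rw [← Nat.card_coe_set_eq]
    have h3 : Nat.card {q : (i : I) → AffI ι (r i) | ∀ i, q i ∈ T i} =
        Nat.card ((i : I) → {h : AffI ι (r i) // h ∈ T i}) :=
      Nat.card_congr (Equiv.subtypePiEquivPi (p := fun i (h : AffI ι (r i)) => h ∈ T i))
    rw [h3, Nat.card_pi]
    exact Finset.prod_congr rfl fun i _ => Nat.card_coe_set_eq (T i)
  rw [e1]
  have e4 : ((((QuotientGroup.mk : G → G ⧸ N) '' S0).ncard : ℕ) : ℝ) ≤
      ((∏ i, (T i).ncard : ℕ) : ℝ) := by exact_mod_cast e2.trans (le_of_eq e3)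
  refine le_trans e4 ?_
  push_cast
  rw [← Finset.prod_mul_distrib]
  refine Finset.prod_le_prod (fun i _ => by positivity) fun i _ => ?_
  have c1 := card_AffI ι (r i)
  have c4 := hloc i
  have h3i := (hrr i).1
  have hrp : 0 < (r i) ^ Fintype.card ι := by
    have : 0 < r i := by omega
    positivity
  have h9 : (0 : ℝ) < r i := by
    have : 0 < r i := by omega
    exact_mod_cast this
  obtain ⟨A, hA⟩ : ∃ A, A = Nat.card (AffI ι (r i)) := ⟨_, rfl⟩
  obtain ⟨t, ht⟩ : ∃ t, t = (T i).ncard := ⟨_, rfl⟩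
  obtain ⟨R, hR⟩ : ∃ R, R = (r i) ^ Fintype.card ι := ⟨_, rfl⟩
  rw [← hA, ← ht, ← hR] at c4
  rw [← hA, ← hR] at c1
  rw [← hA, ← ht]
  have h5 : A ≤ r i * R := by
    rw [c1]
    exact Nat.mul_le_mul_right _ (Nat.sub_le _ _)
  have h6 : (A : ℝ) ≤ r i * R := by exact_mod_cast h5
  have h7 : 2 * (t : ℝ) + R ≤ 2 * A := by exact_mod_cast c4
  have h8 : 1 / (2 * (r i : ℝ)) * A ≤ R / 2 := by
    rw [div_mul_eq_mul_div, one_mul, div_le_iff₀ (by positivity)]
    linarith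
  have h10 : (1 - 1 / (2 * (r i : ℝ))) * A = A - 1 / (2 * (r i : ℝ)) * A := by ring
  rw [h10]
  linarith

end Pool.Agent.H800.TH.TRatio
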